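import Pool.Agent.P8H10.ET.StmF
import Pool.Agent.P8H20.ET.Sum

/-!
Project ET (helper10), package SUPP: the Weierstrass function of a commensurable lattice.
-/

set_option autoImplicit false

open Filter Topology
open scoped PeriodPair

namespace Pool.Agent.P8H76.ET

open Pool.Agent.P8H10.ET Pool.Agent.P8H20.ET

/-- the summand of `℘` -/
noncomputable def gg (L : PeriodPair) (z : ℂ) (p : ℤ × ℤ) : ℂ :=
  1 / (z - ((p.1 : ℂ) * L.ω₁ + (p.2 : ℂ) * L.ω₂)) ^ 2 -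
    1 / ((p.1 : ℂ) * L.ω₁ + (p.2 : ℂ) * L.ω₂) ^ 2

lemma hs_gg (L : PeriodPair) (z : ℂ) : HasSum (gg L z) (℘[L] z) := by
  have h4 := (L.latticeEquivProd.symm.toEquiv.hasSum_iff).mpr (L.hasSum_weierstrassP z)
  have e : gg L z = (fun l : L.lattice => (1 / (z - l) ^ 2 - 1 / (l : ℂ) ^ 2)) ∘
      L.latticeEquivProd.symm.toEquiv := by
    funext p
    have h5 : ((L.latticeEquivProd.symm.toEquiv p : L.lattice) : ℂ)
        = (p.1 : ℂ) * L.ω₁ + (p.2 : ℂ) * L.ω₂ := L.latticeEquiv_symm_apply p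
    rw [Function.comp_apply, h5, gg]
  rw [e]
  exact h4

lemma neg_wp (L : PeriodPair) (z : ℂ) : ℘[L] (-z) = ℘[L] z := L.weierstrassP_neg z

lemma term2 (L L' : PeriodPair) (u v : ℕ) [NeZero u] [NeZero v] (h1 : L'.ω₁ = L.ω₁)
    (h2 : L'.ω₂ = (u / v : ℂ) * L.ω₂) (z : ℂ) (i : Fin u) (j : Fin v) (p : ℤ × ℤ) :
    (u : ℂ) ^ 2 * gg L' z (eqv u v ((i, j), p)) =
      gg L (z / u - (((i : ℕ) : ℂ) * L.ω₁ / u + ((j : ℕ) : ℂ) * L.ω₂ / v)) p -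
      gg L (-(((i : ℕ) : ℂ) * L.ω₁ / u + ((j : ℕ) : ℂ) * L.ω₂ / v)) p := by
  have hu' : (u : ℂ) ≠ 0 := by exact_mod_cast (NeZero.ne u)
  have hv' : (v : ℂ) ≠ 0 := by exact_mod_cast (NeZero.ne v)
  obtain ⟨a, b⟩ := p
  rw [eqv_apply]
  obtain ⟨t, ht⟩ : ∃ t : ℂ, t = ((i : ℕ) : ℂ) * L.ω₁ / u + ((j : ℕ) : ℂ) * L.ω₂ / v := ⟨_, rfl⟩
  obtain ⟨l, hl⟩ : ∃ l : ℂ, l = (a : ℂ) * L.ω₁ + (b : ℂ) * L.ω₂ := ⟨_, rfl⟩
  have key : (((a * (u : ℤ) + ((i : ℕ) : ℤ) : ℤ) : ℂ) * L'.ω₁ +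
      ((b * (v : ℤ) + ((j : ℕ) : ℤ) : ℤ) : ℂ) * L'.ω₂) = (u : ℂ) * (l + t) := by
    rw [h1, h2, hl, ht]
    push_cast
    field_simp
    ring
  simp only [gg]
  rw [key, ← ht, ← hl]
  have e1 : z - (u : ℂ) * (l + t) = (u : ℂ) * (z / u - t - l) := by
    field_simp
    ring
  have e2 : (-t - l) ^ 2 = (l + t) ^ 2 := by ring
  rw [e1, e2, mul_pow, mul_pow]
  have hu2 : (u : ℂ) ^ 2 ≠ 0 := pow_ne_zero 2 hu'
  have e3 : ∀ x : ℂ, (u : ℂ) ^ 2 * (1 / ((u : ℂ) ^ 2 * x)) = 1 / x := by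
    intro x
    rw [one_div, mul_inv, ← mul_assoc, mul_inv_cancel₀ hu2, one_mul, one_div]
  rw [mul_sub, e3, e3]
  ring

/-- **SUPP.** -/
theorem supp : S_SUPP := by
  intro L L' u v hu hv h1 h2 z _
  have : NeZero u := ⟨hu.ne'⟩
  have : NeZero v := ⟨hv.ne'⟩
  have hS2 : Summable (fun q => gg L' z (eqv u v q)) :=
    (hs_gg L' z).summable.comp_injective (eqv u v).injective
  have h3 : ∑' q, gg L' z (eqv u v q)
      = ∑' ij : Fin u × Fin v, ∑' p : ℤ × ℤ, gg L' z (eqv u v (ij, p)) := hS2.tsum_prod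
  rw [← (hs_gg L' z).tsum_eq, ← (eqv u v).tsum_eq (gg L' z), h3, tsum_fintype,
    Fintype.sum_prod_type, Finset.mul_sum,
    Finset.sum_range (fun i => ∑ j ∈ Finset.range v,
      (℘[L] (z / u - ((i : ℂ) * L.ω₁ / u + (j : ℂ) * L.ω₂ / v)) -
        ℘[L] ((i : ℂ) * L.ω₁ / u + (j : ℂ) * L.ω₂ / v)))]
  refine Finset.sum_congr rfl fun i _ => ?_
  rw [Finset.mul_sum, Finset.sum_range (fun j =>
      (℘[L] (z / u - (((i : ℕ) : ℂ) * L.ω₁ / u + (j : ℂ) * L.ω₂ / v)) -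
        ℘[L] (((i : ℕ) : ℂ) * L.ω₁ / u + (j : ℂ) * L.ω₂ / v)))]
  refine Finset.sum_congr rfl fun j _ => ?_
  rw [← tsum_mul_left]
  have e := ((hs_gg L (z / u - (((i : ℕ) : ℂ) * L.ω₁ / u + ((j : ℕ) : ℂ) * L.ω₂ / v))).sub
    (hs_gg L (-(((i : ℕ) : ℂ) * L.ω₁ / u + ((j : ℕ) : ℂ) * L.ω₂ / v)))).tsum_eq
  rw [neg_wp] at e
  rw [← e]
  exact tsum_congr fun p => term2 L L' u v h1 h2 z i j p

end Pool.Agent.P8H76.ET
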